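import Pool.Agent.H23.DM.TargetsG
import Pool.Agent.H49.TMB.ZT

/-!
# The points of a lattice (module ZT)
-/

set_option autoImplicit false

open NumberField NumberField.InfinitePlace NumberField.Units
  NumberField.Units.dirichletUnitTheorem MeasureTheory Set Filter Complex
open scoped nonZeroDivisors ENNReal

namespace Pool.Agent.H39.DM.ZT

open Pool.Agent.H25.HK Pool.Agent.H23.LB Pool.Agent.H23.LC
open Pool.Agent.H28.RC (Rep ft idl)
open Pool.Agent.H29.DW (dg Rl lf wv Pos Wg cpar Ci om zs rv Wt)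
open Pool.Agent.H31.SW (EE itg FF HD DB DS dif Pf GG G2 DD PP pF dK pz ps Tf WG)
open Pool.Agent.H27.TM
open Pool.Agent.H49.TMB.ZT
open Pool.Agent.H23.DM (D_ZT)

theorem DD_nonneg {K : Type} [Field K] [NumberField K] (L : FI K) (y : InfinitePlace K → ℝ) :
    0 ≤ DD L y := by
  unfold DD
  refine div_nonneg (Real.exp_pos _).le ?_
  exact_mod_cast FractionalIdeal.absNorm_nonneg L

theorem pf_ZT (hNZ : M_NZ) (hWS : Pool.Agent.H31.SW.W_WS) : D_ZT := by
  intro n k hn hk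
  obtain ⟨C₁, hC₁, h1⟩ := hNZ n hn
  obtain ⟨C₂, hC₂, h2⟩ := hWS n hn
  refine ⟨C₁ + C₂, by positivity, ?_⟩
  intro K _ _ hK L α τ W hN0 hα hW
  have hPos : Pos (fun _ : InfinitePlace K => (1 : ℂ)) :=
    ⟨fun _ => norm_one, fun _ _ => Complex.one_im⟩
  have hD : 0 ≤ DD L (fun _ => 0) := DD_nonneg L _
  change {ν : K | ν ∈ L ∧ ν ≠ 0 ∧ ∀ v, ‖mc α ν v‖ ≤ W * bt α τ v}.Finite ∧
    ({ν : K | ν ∈ L ∧ ν ≠ 0 ∧ ∀ v, ‖mc α ν v‖ ≤ W * bt α τ v}.ncard : ℝ) ≤
      (C₁ + C₂) * (DD L (fun _ => 0) * (PP α * PP (bt α τ)) * W ^ n) ∧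
    Summable (fun ν : {ν : K // ν ∈ L} => ∏ v : InfinitePlace K,
      (1 + ‖mc α ν.1 v‖ / bt α τ v) ^ (-(k : ℝ))) ∧
    ∑' ν : {ν : K // ν ∈ L ∧ ¬ ∀ v, ‖mc α ν v‖ ≤ W * bt α τ v}, ∏ v : InfinitePlace K,
      (1 + ‖mc α ν.1 v‖ / bt α τ v) ^ (-(k : ℝ)) ≤
        (C₁ + C₂) * (W ^ (-((k : ℝ) - 5)) * (1 + DD L (fun _ => 0) * (PP α * PP (bt α τ))))
  have hbt := bt_pos α τ
  have hPα : 0 ≤ PP α := PP_nonneg (fun v => (hα v).le)
  have hPb : 0 ≤ PP (bt α τ) := PP_nonneg (fun v => (hbt v).le)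
  have hc : ∀ v : InfinitePlace K, 1 ≤ 2 * Real.pi * (dg (rv v) : ℝ) := fun v => two_pi_dg _
  -- the radii
  have hJ0 : ∀ v : InfinitePlace K, 0 < bt α τ v * α v / (2 * Real.pi * dg (rv v)) := by
    intro v
    have := hc v
    have := hα v
    have := hbt v
    positivity
  have hJ : PP (fun v => bt α τ v * α v / (2 * Real.pi * dg (rv v))) ≤ PP α * PP (bt α τ) := by
    rw [mul_comm (PP α), ← PP_mul]
    refine PP_mono (fun v => (hJ0 v).le) (fun v => ?_)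
    exact div_le_self (mul_nonneg (hbt v).le (hα v).le) (hc v)
  have hq : ∀ (x : K) (v : InfinitePlace K), ‖mc α x v‖ / bt α τ v =
      ‖wv v x (fun _ => 0) (fun _ => 1)‖ / (bt α τ v * α v / (2 * Real.pi * dg (rv v))) := by
    intro x v
    rw [norm_mc hα, wv_one]
    have h3 := hc v
    have h4 := hα v
    have h5 := hbt v
    have h6 : (2 * Real.pi * (dg (rv v) : ℝ)) ≠ 0 := by positivity
    field_simp
  have hset : {ν : K | ν ∈ L ∧ ν ≠ 0 ∧ ∀ v, ‖mc α ν v‖ ≤ W * bt α τ v} =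
      {x : K | x ∈ L ∧ x ≠ 0 ∧ ∀ v, ‖wv v x (fun _ => 0) (fun _ => 1)‖ ≤
        W * (bt α τ v * α v / (2 * Real.pi * dg (rv v)))} := by
    ext x
    simp only [Set.mem_ofPred_eq]
    refine and_congr_right fun _ => and_congr_right fun _ => forall_congr' fun v => ?_
    rw [← div_le_iff₀ (hbt v), hq, div_le_iff₀ (hJ0 v)]
  obtain ⟨hfin, hcard⟩ := h1 K hK L (fun _ => 0) (fun _ => 1)
    (fun v => W * (bt α τ v * α v / (2 * Real.pi * dg (rv v)))) hN0 hPos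
    (fun v => mul_nonneg (by linarith) (hJ0 v).le)
  have hWn : PP (fun v : InfinitePlace K => W * (bt α τ v * α v / (2 * Real.pi * dg (rv v)))) ≤
      W ^ n * (PP α * PP (bt α τ)) := by
    rw [PP_mul (fun _ => W), PP_const, hK]
    exact mul_le_mul_of_nonneg_left hJ (by positivity)
  have hS : ∀ j : ℕ, 3 ≤ j → Summable (fun x : {x : K // x ∈ L} => ∏ v : InfinitePlace K,
      (1 + ‖mc α x.1 v‖ / bt α τ v) ^ (-(j : ℝ))) ∧
      ∑' x : {x : K // x ∈ L}, ∏ v : InfinitePlace K,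
        (1 + ‖mc α x.1 v‖ / bt α τ v) ^ (-(j : ℝ)) ≤
        C₂ * (1 + DD L (fun _ => 0) * (PP α * PP (bt α τ))) := by
    intro j hj
    obtain ⟨s1, s2⟩ := h2 K hK L (fun _ => 0) (fun _ => 1)
      (fun v => bt α τ v * α v / (2 * Real.pi * dg (rv v))) j hN0 hPos hJ0 hj
    have e : (fun x : {x : K // x ∈ L} => ∏ v : InfinitePlace K,
        (1 + ‖mc α x.1 v‖ / bt α τ v) ^ (-(j : ℝ))) =
        (fun x : {x : K // x ∈ L} => ∏ v : InfinitePlace K,
        (1 + ‖wv v x.1 (fun _ => 0) (fun _ => 1)‖ /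
          (bt α τ v * α v / (2 * Real.pi * dg (rv v)))) ^ (-(j : ℝ))) := by
      funext x
      exact Finset.prod_congr rfl (fun v _ => by rw [hq])
    rw [e]
    refine ⟨s1, s2.trans ?_⟩
    refine mul_le_mul_of_nonneg_left ?_ (by linarith)
    linarith [mul_le_mul_of_nonneg_left hJ hD]
  refine ⟨?_, ?_, (hS k (by omega)).1, ?_⟩
  · rw [hset]
    exact hfin
  · rw [hset]
    refine hcard.trans ?_
    have a2 := mul_le_mul_of_nonneg_left hWn hD
    have a3 : 0 ≤ DD L (fun _ => 0) * (W ^ n * (PP α * PP (bt α τ))) :=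
      mul_nonneg hD (mul_nonneg (by positivity) (mul_nonneg hPα hPb))
    calc C₁ * (DD L (fun _ => 0) *
          PP (fun v : InfinitePlace K => W * (bt α τ v * α v / (2 * Real.pi * dg (rv v)))))
        ≤ C₁ * (DD L (fun _ => 0) * (W ^ n * (PP α * PP (bt α τ)))) :=
          mul_le_mul_of_nonneg_left a2 (by linarith)
      _ ≤ (C₁ + C₂) * (DD L (fun _ => 0) * (W ^ n * (PP α * PP (bt α τ)))) :=
          mul_le_mul_of_nonneg_right (by linarith) a3
      _ = (C₁ + C₂) * (DD L (fun _ => 0) * (PP α * PP (bt α τ)) * W ^ n) := by ring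
  · obtain ⟨s1, s2⟩ := hS 5 (by norm_num)
    set g : K → ℝ := fun x => ∏ v : InfinitePlace K,
      (1 + ‖mc α x v‖ / bt α τ v) ^ (-((5 : ℕ) : ℝ)) with hg
    have hg0 : ∀ x, 0 ≤ g x := fun x => Finset.prod_nonneg (fun v _ =>
      Real.rpow_nonneg (by
        have := div_nonneg (norm_nonneg (mc α x v)) (hbt v).le
        linarith) _)
    have hW0 : 0 ≤ W ^ (-((k : ℝ) - 5)) := Real.rpow_nonneg (by linarith) _
    have key := tail_le (fun x : K => x ∈ L)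
      (fun ν : K => ν ∈ L ∧ ¬ ∀ v, ‖mc α ν v‖ ≤ W * bt α τ v)
      (fun x => ∏ v : InfinitePlace K, (1 + ‖mc α x v‖ / bt α τ v) ^ (-(k : ℝ))) g
      (W ^ (-((k : ℝ) - 5))) (C₂ * (1 + DD L (fun _ => 0) * (PP α * PP (bt α τ)))) hW0
      (fun x hx => hx.1) hg0 (hS k (by omega)).1 s1 s2 (by
        intro x hx
        refine prod_split k hk hW (fun v => ‖mc α x v‖ / bt α τ v)
          (fun v => div_nonneg (norm_nonneg _) (hbt v).le) ?_
        intro h
        exact hx.2 (fun v => (div_le_iff₀ (hbt v)).1 (h v)))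
    calc ∑' x : {ν : K // ν ∈ L ∧ ¬ ∀ v, ‖mc α ν v‖ ≤ W * bt α τ v},
          ∏ v : InfinitePlace K, (1 + ‖mc α x.1 v‖ / bt α τ v) ^ (-(k : ℝ))
        ≤ W ^ (-((k : ℝ) - 5)) * (C₂ * (1 + DD L (fun _ => 0) * (PP α * PP (bt α τ)))) := key
      _ ≤ W ^ (-((k : ℝ) - 5)) * ((C₁ + C₂) * (1 + DD L (fun _ => 0) * (PP α * PP (bt α τ)))) := by
          refine mul_le_mul_of_nonneg_left ?_ hW0
          have b2 : 0 ≤ PP α * PP (bt α τ) := mul_nonneg hPα hPb
          exact mul_le_mul_of_nonneg_right (by linarith) (by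
            have := mul_nonneg hD b2
            linarith)
      _ = (C₁ + C₂) * (W ^ (-((k : ℝ) - 5)) * (1 + DD L (fun _ => 0) * (PP α * PP (bt α τ)))) := by
          ring

end Pool.Agent.H39.DM.ZT
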