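import Pool.Agent.H71.DM.Targets
import Pool.Agent.H71.DM.Basic

set_option autoImplicit false

namespace Pool.Agent.H39.DM

open Finset Pool.Agent.H71.DM

theorem hst (hC : CountStmt) (hB : BesselStmt) (hD : RichDiffStmt) : HostStmt := by
  intro p θ κ hθ hθ1 hκ
  have hp1 : (0:ℝ) < p + 1 := by positivity
  have he : 0 < θ ^ p * κ / (4 * (p + 1)) := by positivity
  set e : ℝ := θ ^ p * κ / (4 * (p + 1)) with hedef
  obtain ⟨δ, hδ, hbes⟩ := hB (e ^ 2) (by positivity)
  refine ⟨δ, hδ, ?_⟩
  intro G H g ν S f hν hS hf hhom hlab hκp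
  classical
  have hrich := hD G ((Fin p × Fin g) ⊕ ((Fin p → Fin g) × Fin p)) S
    (fun w n => match w with
      | Sum.inl ij => {s | s ∈ S n ∧ e < ν n ij.1 ij.2 s}
      | Sum.inr ti => {s | s ∈ S n ∧ e ^ 2 < ex (prodW (fun i => ν n i (ti.1 i))) (fun x =>
          (ex (ν n ti.2 (ti.1 ti.2)) (fun a =>
            ind (Pat (G.adj n) H p (Function.update x ti.2 a)) *
              (ind (G.adj n a s) - f ti.2 (ti.1 ti.2) n a))) ^ 2)}) hS (by
      rintro (⟨i, j⟩ | ⟨t, i⟩)
      · dsimp only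
        rw [not_rich]
        refine ⟨⌈1 / e⌉₊, Filter.Eventually.of_forall fun n => ?_⟩
        intro h
        obtain ⟨y, hy, hy2⟩ := h (univ.filter (fun s => e < ν n i j s)) (by
          have h1 := card_atoms (hν n i j) (univ.filter (fun s => e < ν n i j s))
            (θ := e) (fun a ha => (Finset.mem_filter.1 ha).2.le)
          have h2 : ((univ.filter (fun s => e < ν n i j s)).card : ℝ) ≤ 1 / e := by
            rw [le_div_iff₀ he]; exact h1
          have h3 := h2.trans (Nat.le_ceil _)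
          exact_mod_cast h3)
        have h3 := hy2 y (Finset.mem_filter.2 ⟨mem_univ _, hy.2⟩)
        exact G.asymm n y y h3 h3
      · exact hbes G S (fun n => ν n i (t i)) (f i (t i)) (fun n => hν n i (t i))
          (fun n a => hf i (t i) n a) (hhom i (t i)) (fun n => Fin p → G.V n)
          (fun n => prodW (fun i => ν n i (t i))) (fun n => prodW_prob fun i => hν n i (t i))
          (fun n x a => ind (Pat (G.adj n) H p (Function.update x i a)))
          (fun n o a => by rw [abs_of_nonneg (ind_nonneg _)]; exact ind_le_one _))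
  refine hrich.mono ?_
  filter_upwards [hlab, hκp] with n h1 h2 s hs
  refine ⟨hs.1, fun t => ?_⟩
  have h3 := hC (G.V n) (G.adj n) (G.asymm n) (G.total n) H p (fun i => ν n i (t i))
    (fun i => f i (t i) n) θ e s (fun i => hν n i (t i)) (fun i a => hf i (t i) n a) hθ.le hθ1
    he.le (fun i a ha => h1 i (t i) a ha)
    (fun i => by
      by_contra hc
      push Not at hc
      exact hs.2 (Sum.inl (i, t i)) ⟨hs.1, hc⟩)
    (fun i => by
      by_contra hc
      push Not at hc
      exact hs.2 (Sum.inr (t, i)) ⟨hs.1, hc⟩)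
  refine le_trans ?_ h3
  have h4 : θ ^ p * κ ≤ θ ^ p * pr (prodW (fun i => ν n i (t i))) (Pat (G.adj n) H p) :=
    mul_le_mul_of_nonneg_left (h2 t) (by positivity)
  have h5 : 2 * (p:ℝ) * e ≤ θ ^ p * κ / 2 := by
    rw [hedef]
    have h6 : 2 * (p:ℝ) * (θ ^ p * κ / (4 * (p + 1))) = θ ^ p * κ / 2 * (p / (p + 1)) := by
      field_simp
      ring
    rw [h6]
    have h7 : (p:ℝ) / (p + 1) ≤ 1 := by
      rw [div_le_one hp1]; linarith
    have h8 : 0 ≤ θ ^ p * κ / 2 := by positivity
    calc θ ^ p * κ / 2 * (p / (p + 1)) ≤ θ ^ p * κ / 2 * 1 := mul_le_mul_of_nonneg_left h7 h8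
      _ = _ := mul_one _
  linarith

end Pool.Agent.H39.DM
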