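import Pool.Agent.H71.DM.Targets
import Pool.Agent.H71.DM.Basic

set_option autoImplicit false

namespace Pool.Agent.H39.DM

open Finset Pool.Agent.H71.DM

theorem ref (hH : HomogStmt) (hD : RichDiffStmt) : RefineStmt := by
  intro G μ R Y m θ δ b hμ hm hθ hθ1 hδ hY hrich
  have hδ0 : 0 < min δ (θ * m / 4) := lt_min hδ (by positivity)
  obtain ⟨f, S, hS, hSR1, hf, hhom⟩ := hH G _ μ _ hrich hμ hδ0
  classical
  refine ⟨S, f, fun n => (Y n).filter (fun a => (b = true → θ / 4 ≤ f n a) ∧
    (b = false → f n a ≤ 1 - θ / 4)), hS, fun n s hs => (hSR1 n hs).1, hf,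
    hhom.mono (Sub.refl S) (min_le_left _ _), fun n => Finset.filter_subset _ _, ?_, ?_⟩
  · set g : ∀ n, G.V n → ℝ := fun n a => (if b then (1:ℝ) else -1) * ind (a ∈ Y n) with hg
    have hg1 : ∀ n a, |g n a| ≤ 1 := by
      intro n a
      rw [hg]
      dsimp only
      rw [abs_mul, abs_of_nonneg (ind_nonneg _)]
      cases b
      · simpa using ind_le_one _
      · simpa using ind_le_one _
    have h1 := hhom g hg1
    have h2 := hD G Unit S (fun _ n => {s | s ∈ S n ∧ min δ (θ * m / 4) <
      ex (μ n) (fun a => g n a * (ind (G.adj n a s) - f n a))}) hS (fun _ => h1)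
    filter_upwards [h2 0, hY] with n h3 hm'
    obtain ⟨s, hs, hs2⟩ := h3.nonempty
    have hs3 : ex (μ n) (fun a => g n a * (ind (G.adj n a s) - f n a)) ≤ min δ (θ * m / 4) := by
      by_contra hc
      push Not at hc
      exact hs2 () ⟨hs, hc⟩
    have hs4 := (hSR1 n hs).2
    have hpr : pr (μ n) (fun a => a ∈ Y n ∧ (b = true → G.adj n a s) ∧
        (b = false → ¬ G.adj n a s)) = ex (μ n) (fun a => ind (a ∈ Y n) *
          (if b then f n a else 1 - f n a)) +
        ex (μ n) (fun a => g n a * (ind (G.adj n a s) - f n a)) := by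
      unfold pr
      rw [← ex_add]
      refine ex_congr fun a _ => ?_
      rw [hg]
      cases b
      · simp only [Bool.false_eq_true, if_false, false_imp_iff, true_imp_iff, true_and, ind_and,
          ind_not]
        ring
      · simp only [Bool.true_eq_false, if_true, false_imp_iff, true_imp_iff, and_true, ind_and]
        ring
    have hle : ex (μ n) (fun a => ind (a ∈ Y n) * (if b then f n a else 1 - f n a)) ≤
        pr (μ n) (fun a => a ∈ (Y n).filter (fun a => (b = true → θ / 4 ≤ f n a) ∧
          (b = false → f n a ≤ 1 - θ / 4))) + θ / 4 * pr (μ n) (fun a => a ∈ Y n) := by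
      unfold pr
      rw [← ex_mul_left, ← ex_add]
      refine ex_mono' (hμ n).1 fun a => ?_
      have hfa := hf n a
      by_cases haY : a ∈ Y n
      · rw [ind_true haY]
        by_cases hP : (b = true → θ / 4 ≤ f n a) ∧ (b = false → f n a ≤ 1 - θ / 4)
        · rw [ind_true (Finset.mem_filter.2 ⟨haY, hP⟩)]
          cases b
          · simp only [Bool.false_eq_true, if_false]; linarith [hfa.1]
          · simp only [if_true]; linarith [hfa.2]
        · have hz : ind ((fun a => a ∈ (Y n).filter (fun a => (b = true → θ / 4 ≤ f n a) ∧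
              (b = false → f n a ≤ 1 - θ / 4))) a) = 0 :=
            ind_false (fun h => hP (Finset.mem_filter.1 h).2)
          rw [hz]
          cases b
          · simp only [Bool.false_eq_true, if_false, false_imp_iff, true_imp_iff, true_and,
              not_le] at hP ⊢
            linarith
          · simp only [Bool.true_eq_false, if_true, false_imp_iff, true_imp_iff, and_true,
              not_le] at hP ⊢
            linarith
      · rw [ind_false haY]
        have := ind_nonneg (a ∈ (Y n).filter (fun a => (b = true → θ / 4 ≤ f n a) ∧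
          (b = false → f n a ≤ 1 - θ / 4)))
        linarith
    have h5 : min δ (θ * m / 4) ≤ θ * m / 4 := min_le_right _ _
    have h6 : θ * m ≤ θ * pr (μ n) (fun a => a ∈ Y n) := mul_le_mul_of_nonneg_left hm' hθ.le
    rw [hpr] at hs4
    linarith
  · exact Filter.Eventually.of_forall fun n a ha => (Finset.mem_filter.1 ha).2

end Pool.Agent.H39.DM
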