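import Pool.Agent.H71.DM.Targets
import Pool.Agent.H71.DM.Basic

set_option autoImplicit false

namespace Pool.Agent.H39.DM

open Finset Pool.Agent.H71.DM

theorem BadAt_mono {V : Type} [Fintype V] {adj : V → V → Prop} {μ : V → ℝ} {N R : Set V}
    {δ θ : ℝ} {k k' : ℕ} (hk : k ≤ k') (h : BadAt adj μ N R δ θ k) : BadAt adj μ N R δ θ k' := by
  obtain ⟨Y, hY, hm, h1 | h1⟩ := h
  · exact ⟨Y, hY, hm, Or.inl fun h2 => h1 (h2.mono hk le_rfl)⟩
  · exact ⟨Y, hY, hm, Or.inr fun h2 => h1 (h2.mono hk le_rfl)⟩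

/-- going through the pairs one after the other -/
theorem vtx_pairs (hR : RefineStmt) (G : TSeq) (μ : ∀ n, G.V n → ℝ) (hμ : ∀ n, IsProb (μ n))
    (Y : Type) [Fintype Y] (R : Y → ∀ n, Set (G.V n)) (N : Y → ∀ n, Set (G.V n))
    (κ δ δ' θ : ℝ) (hκ : 0 < κ) (hδ' : 0 < δ') (hθ : 0 < θ) (hθ1 : θ ≤ 1)
    (hδκ : δ ≤ κ * (θ / 2) ^ (2 * Fintype.card Y))
    (X₀ : ∀ n, Finset (G.V n)) (hX₀ : ∀ n, ∀ a ∈ X₀ n, ∀ y, a ∈ N y n)
    (hmass : ∀ᶠ n in UU, κ ≤ pr (μ n) (fun a => a ∈ X₀ n))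
    (hbad : ∀ k : ℕ, ∀ᶠ n in UU, ∀ y, ¬ BadAt (G.adj n) (μ n) (N y n) (R y n) δ θ k)
    (P : Finset (Y × Bool)) :
    ∃ X : ∀ n, Finset (G.V n), (∀ n, X n ⊆ X₀ n) ∧
      (∀ᶠ n in UU, κ * (θ / 2) ^ P.card ≤ pr (μ n) (fun a => a ∈ X n)) ∧
      ∀ p ∈ P, ∃ (R' : ∀ n, Set (G.V n)) (f : ∀ n, G.V n → ℝ), Rich G R' ∧ Sub G R' (R p.1) ∧
        (∀ n a, 0 ≤ f n a ∧ f n a ≤ 1) ∧ Homog G R' μ f δ' ∧
        (∀ᶠ n in UU, ∀ a ∈ X n, (p.2 = true → θ / 4 ≤ f n a) ∧
          (p.2 = false → f n a ≤ 1 - θ / 4)) := by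
  classical
  induction P using Finset.induction_on with
  | empty =>
    refine ⟨X₀, fun n => subset_rfl, ?_, by simp⟩
    simpa using hmass
  | insert p P hp ih =>
    obtain ⟨X, hX, hXm, hXp⟩ := ih
    have hcard : (insert p P).card ≤ 2 * Fintype.card Y := by
      refine (Finset.card_le_univ _).trans ?_
      rw [Fintype.card_prod, Fintype.card_bool, mul_comm]
    rw [Finset.card_insert_of_notMem hp] at hcard
    have hpow : κ * (θ / 2) ^ (2 * Fintype.card Y) ≤ κ * (θ / 2) ^ P.card := by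
      refine mul_le_mul_of_nonneg_left ?_ hκ.le
      exact pow_le_pow_of_le_one (by positivity) (by linarith) (by omega)
    have hrich : Rich G (fun n => {s | s ∈ R p.1 n ∧ θ * pr (μ n) (fun a => a ∈ X n) <
        pr (μ n) (fun a => a ∈ X n ∧ (p.2 = true → G.adj n a s) ∧
          (p.2 = false → ¬ G.adj n a s))}) := by
      intro k
      filter_upwards [hXm, hbad k] with n h1 h2
      have h3 : ¬ Removable (G.adj n) (μ n) (R p.1 n) δ θ k (X n) := fun h =>
        h2 p.1 ⟨X n, fun a ha => hX₀ n a (hX n ha) p.1, h⟩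
      unfold Removable at h3
      rw [not_and, not_or, not_not, not_not] at h3
      obtain ⟨h4, h5⟩ := h3 (by linarith)
      rcases p with ⟨y, b⟩
      cases b
      · refine h4.mono le_rfl fun s hs => ⟨hs.1, ?_⟩
        simpa using hs.2
      · refine h5.mono le_rfl fun s hs => ⟨hs.1, ?_⟩
        simpa using hs.2
    obtain ⟨R', f, Y', hR', hsub, hf, hhom, hY', hY'm, hY'f⟩ :=
      hR G μ (R p.1) X (κ * (θ / 2) ^ P.card) θ δ' p.2 hμ (by positivity) hθ hθ1 hδ' hXm hrich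
    refine ⟨Y', fun n => (hY' n).trans (hX n), ?_, ?_⟩
    · filter_upwards [hXm, hY'm] with n h1 h2
      rw [Finset.card_insert_of_notMem hp, pow_succ]
      have h3 : θ / 2 * (κ * (θ / 2) ^ P.card) ≤ θ / 2 * pr (μ n) (fun a => a ∈ X n) :=
        mul_le_mul_of_nonneg_left h1 (by positivity)
      calc κ * ((θ / 2) ^ P.card * (θ / 2)) = θ / 2 * (κ * (θ / 2) ^ P.card) := by ring
        _ ≤ _ := h3.trans h2
    · intro p' hp'
      rcases Finset.mem_insert.1 hp' with rfl | hp'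
      · exact ⟨R', f, hR', hsub, hf, hhom, hY'f⟩
      · obtain ⟨R1, f1, h1, h2, h3, h4, h5⟩ := hXp p' hp'
        refine ⟨R1, f1, h1, h2, h3, h4, ?_⟩
        filter_upwards [h5] with n h6 a ha
        exact h6 a (hY' n ha)

/-- conditioning on a set of positive mass -/
noncomputable def cond {V : Type} [Fintype V] (μ : V → ℝ) (X : Finset V) (v : V) : V → ℝ :=
  open Classical in
  if 0 < pr μ (fun a => a ∈ X) then fun a => μ a * ind (a ∈ X) / pr μ (fun a => a ∈ X)
  else Pi.single v 1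

theorem cond_prob {V : Type} [Fintype V] {μ : V → ℝ} (hμ : IsProb μ) (X : Finset V) (v : V) :
    IsProb (cond μ X v) := by
  classical
  unfold cond
  split_ifs with h
  · constructor
    · intro a
      exact div_nonneg (mul_nonneg (hμ.1 a) (ind_nonneg _)) h.le
    · rw [← Finset.sum_div]
      exact div_self h.ne'
  · exact single_prob v

theorem cond_pos {V : Type} [Fintype V] {μ : V → ℝ} {X : Finset V} {v : V}
    (h : 0 < pr μ (fun a => a ∈ X)) {a : V} (ha : cond μ X v a ≠ 0) : μ a ≠ 0 ∧ a ∈ X := by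
  unfold cond at ha
  rw [if_pos h] at ha
  constructor
  · intro h0
    apply ha
    simp [h0]
  · by_contra h0
    apply ha
    rw [ind_false h0]
    simp

theorem ex_cond {V : Type} [Fintype V] {μ : V → ℝ} {X : Finset V} {v : V}
    (h : 0 < pr μ (fun a => a ∈ X)) (f : V → ℝ) :
    ex (cond μ X v) f = ex μ (fun a => ind (a ∈ X) * f a) / pr μ (fun a => a ∈ X) := by
  unfold cond
  rw [if_pos h]
  unfold ex
  rw [Finset.sum_div]
  exact Finset.sum_congr rfl fun a _ => by ring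

theorem vtx (hR : RefineStmt) (hD : DiagStmt) : VertexStmt := by
  intro G B S u E Y _ R N κ δ δ' η θ hS hu hRr hκ hδ hδ' hη hθ hθ1 hYη hδκ h1 h2
  classical
  haveI hne : ∀ n, Nonempty (B.I → B.X n) := by
    intro n
    have h := (prodW_prob (B.hq n)).2
    by_contra hcon
    rw [not_nonempty_iff] at hcon
    rw [Finset.univ_eq_empty, Finset.sum_empty] at h
    exact zero_ne_one h
  obtain ⟨x, hx⟩ := hD (fun n => B.I → B.X n) (fun n k x =>
    κ ≤ pr (mean (B.q n) (B.b n) (u n) E x) (fun a => ∀ y, a ∈ N y n x) ∧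
    ∀ y, ¬ BadAt (G.adj n) (mean (B.q n) (B.b n) (u n) E x) (N y n x) (R y n) δ θ k)
    (fun n k k' x hk h => ⟨h.1, fun y hb => h.2 y (BadAt_mono hk hb)⟩) (by
      intro k
      have h3 := Filter.eventually_all.2 (fun y => h2 y k)
      filter_upwards [h1, h3] with n h4 h5
      have hw := prodW_prob (B.hq n)
      have h6 := pr_exists_le hw.1 (fun y x =>
        BadAt (G.adj n) (mean (B.q n) (B.b n) (u n) E x) (N y n x) (R y n) δ θ k)
      have h7 : ∑ y : Y, pr (prodW (B.q n)) (fun x =>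
        BadAt (G.adj n) (mean (B.q n) (B.b n) (u n) E x) (N y n x) (R y n) δ θ k) ≤
          Fintype.card Y * η := by
        refine (Finset.sum_le_card_nsmul _ _ η fun y _ => h5 y).trans ?_
        rw [nsmul_eq_mul, Finset.card_univ]
      obtain ⟨x, -, hx1, hx2⟩ := exists_of_pr_lt hw.1 (lt_of_le_of_lt (h6.trans h7)
        (lt_of_lt_of_le hYη h4))
      push Not at hx2
      exact ⟨x, hx1, hx2⟩)
  set μ : ∀ n, G.V n → ℝ := fun n => mean (B.q n) (B.b n) (u n) E (x n) with hμdef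
  have hμ : ∀ n, IsProb (μ n) := fun n => mean_prob (B.hq n) (B.b n) (hu.1 n) E (x n)
  have hμS : ∀ᶠ n in UU, ∀ a, μ n a ≠ 0 → a ∈ S n := by
    filter_upwards [hu.2] with n h3 a ha
    exact mean_supp (fun y b hb => (h3 (B.b n y) (B.hb n y) b hb).1) ha
  have hm0 : ∀ᶠ n in UU, κ ≤ pr (μ n) (fun a => a ∈ univ.filter (fun a => ∀ y, a ∈ N y n (x n))) := by
    filter_upwards [hx 0] with n h3
    refine h3.1.trans (pr_mono' (hμ n).1 fun a ha => ?_)
    simpa using ha
  have hκ0 : 0 < κ * (θ / 2) ^ (2 * Fintype.card Y) := by positivity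
  obtain ⟨X, hX, hXm, hXp⟩ := vtx_pairs hR G μ hμ Y R (fun y n => N y n (x n)) κ δ
    (δ' * (κ * (θ / 2) ^ (2 * Fintype.card Y))) θ hκ (by positivity) hθ hθ1 hδκ
    (fun n => univ.filter (fun a => ∀ y, a ∈ N y n (x n)))
    (fun n a ha => by simpa using ha) hm0
    (fun k => by filter_upwards [hx k] with n h3 using h3.2) univ
  rw [Finset.card_univ, Fintype.card_prod, Fintype.card_bool, mul_comm (Fintype.card Y)] at hXm
  have hp' : ∀ (y : Y) (z : Bool), _ := fun y z => hXp (y, z) (mem_univ _)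
  choose R' f hR' hsub hf hhom hlab using hp'
  have hv : ∀ n, ∃ v : G.V n, True := fun n => ⟨Classical.choice (G.ne n), trivial⟩
  choose v hv using hv
  refine ⟨fun n => cond (μ n) (X n) (v n), R', f, fun n => cond_prob (hμ n) _ _, ?_, hR', hsub,
    hf, ?_, ?_⟩
  · filter_upwards [hμS, hXm] with n h3 h4 a ha
    exact h3 a (cond_pos (lt_of_lt_of_le hκ0 h4) ha).1
  · intro y z g hg hrich
    refine hhom y z (fun n a => g n a * ind (a ∈ X n)) ?_ (hrich.mono ?_)
    · intro n a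
      rw [abs_mul, abs_of_nonneg (ind_nonneg _)]
      calc |g n a| * ind (a ∈ X n) ≤ 1 * 1 :=
            mul_le_mul (hg n a) (ind_le_one _) (ind_nonneg _) zero_le_one
        _ = 1 := one_mul 1
    · filter_upwards [hXm] with n h4 s hs
      refine ⟨hs.1, ?_⟩
      have hpos := lt_of_lt_of_le hκ0 h4
      have h5 := hs.2
      rw [ex_cond hpos, lt_div_iff₀ hpos] at h5
      calc δ' * (κ * (θ / 2) ^ (2 * Fintype.card Y)) ≤ δ' * pr (μ n) (fun a => a ∈ X n) :=
            mul_le_mul_of_nonneg_left h4 hδ'.le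
        _ < _ := h5
        _ = _ := ex_congr fun a _ => by ring
  · have h6 : ∀ᶠ n in UU, ∀ y, ∀ z, ∀ a ∈ X n, (z = true → θ / 4 ≤ f y z n a) ∧
        (z = false → f y z n a ≤ 1 - θ / 4) :=
      Filter.eventually_all.2 fun y => Filter.eventually_all.2 fun z => hlab y z
    filter_upwards [h6, hXm] with n h7 h4 y a ha
    have h8 := (cond_pos (lt_of_lt_of_le hκ0 h4) ha).2
    exact ⟨(h7 y true a h8).1 rfl, (h7 y false a h8).2 rfl⟩

end Pool.Agent.H39.DM
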